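import Mathlib
import Pool.Agent.H80.AcmDefs
import Pool.Agent.H80.Acm2

open MvPolynomial Pool.Agent.H80.Acm

theorem Pool.Agent.Results.MP_71c7f5_ag.MonomialCurve.result (K : Type) [Field K] :
    ∃ I : Ideal (MvPolynomial (Fin 5) K),
    (∀ f ∈ I, ∀ n, homogeneousComponent n f ∈ I) ∧ I.IsPrime ∧
    ringKrullDim (MvPolynomial (Fin 5) K ⧸ I) = 2 ∧ RegPair I (X 0) (X 4) ∧
    ∀ l₁ l₂ : MvPolynomial (Fin 5) K, l₁.IsHomogeneous 1 → l₂.IsHomogeneous 1 → RegPair I l₁ l₂ →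
      ¬ WLP (I ⊔ Ideal.span {l₁, l₂}) ∧ ¬ SLP (I ⊔ Ideal.span {l₁, l₂}) :=
  main K
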